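import Pool.Agent.KS6_46.RC.Real

namespace Pool.Agent.KS6_46.RC

open Set Filter Cardinal Pool.Agent.Results.MP_f21612_lc.RelCof

lemma mem_or_compl {I : Set (Set ℕ)} (hI : IsMaximalIdeal I) (X : Set ℕ) : X ∈ I ∨ Xᶜ ∈ I := by
  by_contra hc
  push Not at hc
  let K : Set (Set ℕ) := {Y | ∃ Z ∈ I, Y ⊆ Z ∪ X}
  have hK : IsIdeal K := by
    refine ⟨?_, ?_, ?_, ?_⟩
    · rintro A ⟨Z, hZ, hA⟩ B hB
      exact ⟨Z, hZ, hB.trans hA⟩
    · rintro A ⟨Z, hZ, hA⟩ B ⟨Z', hZ', hB⟩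
      refine ⟨Z ∪ Z', hI.1.2.1 Z hZ Z' hZ', union_subset ?_ ?_⟩
      · exact hA.trans (union_subset_union_left _ subset_union_left)
      · exact hB.trans (union_subset_union_left _ subset_union_right)
    · rintro ⟨Z, hZ, h⟩
      apply hc.2
      refine hI.1.1 Z hZ _ fun m hm => ?_
      exact (h (mem_univ m)).resolve_right hm
    · intro A hA
      exact ⟨A, hI.1.2.2.2 A hA, subset_union_left⟩
  have h1 : K = I := hI.2 K hK fun Z hZ => ⟨Z, hZ, subset_union_left⟩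
  apply hc.1
  rw [← h1]
  exact ⟨∅, hI.1.2.2.2 ∅ finite_empty, subset_union_right⟩

/-- There is no nontrivial convergent sequence of ultrafilters. -/
lemma no_seq {I : Set (Set ℕ)} (hI : IsMaximalIdeal I) (V : ℕ → Ultrafilter ℕ) (X : ℕ → Set ℕ)
    (hX : ∀ n, X n ∈ I) (hXV : ∀ n, X n ∈ V n)
    (hconv : ∀ Y ∈ I, ∃ N, ∀ n, N ≤ n → Yᶜ ∈ V n) : False := by
  classical
  have hstep : ∀ (R : {R : Set ℕ // Rᶜ ∈ I}) (N : ℕ), ∃ n, N ≤ n ∧ (R : Set ℕ) ∈ V n := by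
    rintro ⟨R, hR⟩ N
    obtain ⟨M, hM⟩ := hconv _ hR
    refine ⟨max N M, le_max_left _ _, ?_⟩
    have := hM (max N M) (le_max_right _ _)
    rwa [compl_compl] at this
  choose nx hnx1 hnx2 using hstep
  let upd : {R : Set ℕ // Rᶜ ∈ I} × ℕ → {R : Set ℕ // Rᶜ ∈ I} × ℕ := fun s =>
    (⟨(s.1 : Set ℕ) \ (X (nx s.1 s.2) ∩ s.1), by
      rw [sdiff_eq, compl_inter, compl_compl]
      exact hI.1.2.1 _ s.1.2 _ (hI.1.1 _ (hX (nx s.1 s.2)) _ inter_subset_left)⟩,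
      nx s.1 s.2 + 1)
  let st : ℕ → {R : Set ℕ // Rᶜ ∈ I} × ℕ := fun k =>
    Nat.rec (⟨univ, by rw [compl_univ]; exact hI.1.2.2.2 ∅ finite_empty⟩, 0) (fun _ s => upd s) k
  have hst : ∀ k, st (k + 1) = upd (st k) := fun k => rfl
  let nn : ℕ → ℕ := fun k => nx (st k).1 (st k).2
  let D : ℕ → Set ℕ := fun k => X (nn k) ∩ (st k).1
  have hD : ∀ k, D k ∈ V (nn k) := fun k => inter_mem (hXV _) (hnx2 _ _)
  have hnn : ∀ k, k ≤ nn k := by
    intro k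
    have h1 : ∀ k, k ≤ (st k).2 := by
      intro k
      induction k with
      | zero => exact Nat.zero_le _
      | succ k ih =>
        rw [hst]
        show k + 1 ≤ nx (st k).1 (st k).2 + 1
        have := hnx1 (st k).1 (st k).2
        omega
    exact (h1 k).trans (hnx1 _ _)
  have hR : ∀ k l, k < l → ∀ m ∈ ((st l).1 : Set ℕ), m ∉ D k := by
    intro k l hkl
    induction l with
    | zero => omega
    | succ l ih =>
      intro m hm
      rw [hst] at hm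
      have hm' : m ∈ ((st l).1 : Set ℕ) \ D l := hm
      rcases Nat.lt_or_ge k l with h | h
      · exact ih h m hm'.1
      · have : k = l := by omega
        rw [this]
        exact hm'.2
  have hdisj : ∀ k l, k ≠ l → ∀ m, m ∈ D k → m ∉ D l := by
    intro k l hkl m hm hm'
    rcases lt_or_gt_of_ne hkl with h | h
    · exact hR k l h m hm'.2 hm
    · exact hR l k h m hm.2 hm'
  let E : Set ℕ := {m | ∃ k, m ∈ D (2 * k)}
  have hE : ∀ k, E ∈ V (nn (2 * k)) := fun k =>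
    mem_of_superset (hD (2 * k)) fun m hm => ⟨k, hm⟩
  have hE' : ∀ k, Eᶜ ∈ V (nn (2 * k + 1)) := fun k =>
    mem_of_superset (hD (2 * k + 1)) fun m hm => by
      rintro ⟨j, hj⟩
      exact hdisj (2 * k + 1) (2 * j) (by omega) m hm hj
  rcases mem_or_compl hI E with h | h
  · obtain ⟨N, hN⟩ := hconv _ h
    have h1 := hN (nn (2 * N)) ((by omega : N ≤ 2 * N).trans (hnn _))
    exact Ultrafilter.compl_notMem_iff.2 (hE N) h1
  · obtain ⟨N, hN⟩ := hconv _ h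
    have h1 := hN (nn (2 * N + 1)) ((by omega : N ≤ 2 * N + 1).trans (hnn _))
    rw [compl_compl] at h1
    exact Ultrafilter.compl_notMem_iff.2 h1 (hE' N)

lemma relCof_mem {I J : Set (Set ℕ)} (hJ : ∅ ∈ J) : ∃ B : Set (Set ℕ), B ⊆ I ∧
    #B = relCof J I ∧ ∀ X ∈ I, ∃ Y ∈ B, X \ Y ∈ J := by
  have hne : {c | ∃ B : Set (Set ℕ), B ⊆ I ∧ #B = c ∧ ∀ X ∈ I, ∃ Y ∈ B, X \ Y ∈ J}.Nonempty :=
    ⟨#I, I, Subset.rfl, rfl, fun X hX => ⟨X, hX, by rwa [sdiff_self]⟩⟩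
  exact csInf_mem hne

lemma mem_finset_sup {I : Set (Set ℕ)} (hI : IsIdeal I) {B : Set (Set ℕ)} (hB : B ⊆ I)
    (t : Finset B) : (⋃ Y ∈ t, (Y : Set ℕ)) ∈ I := by
  classical
  induction t using Finset.induction_on with
  | empty => simpa using hI.2.2.2 ∅ finite_empty
  | insert a s _ ih =>
    rw [Finset.set_biUnion_insert]
    exact hI.2.1 _ (hB a.2) _ ih

/-- Writing `κ = cof_J(I)` as a supremum of countably many smaller cardinals is impossible. -/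
lemma no_countable {I J : Set (Set ℕ)} (hI : IsMaximalIdeal I)
    (hJ1 : ∀ A ∈ J, ∀ B, B ⊆ A → B ∈ J) (hJ2 : ∀ A ∈ J, ∀ B ∈ J, A ∪ B ∈ J) (hJ0 : ∅ ∈ J)
    (B : ℕ → Set (Set ℕ)) (hB : ∀ n, B n ⊆ I) (hmono : Monotone B)
    (hcov : ∀ X ∈ I, ∃ n, ∃ Y ∈ B n, X \ Y ∈ J)
    (hlt : ∀ n, #(Finset (B n)) < relCof J I) : False := by
  classical
  have hX : ∀ n, ∃ X ∈ I, ∀ t : Finset (B n), X \ (⋃ Y ∈ t, (Y : Set ℕ)) ∉ J := by
    intro n
    by_contra hc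
    push Not at hc
    have h1 : #(range fun t : Finset (B n) => (⋃ Y ∈ t, (Y : Set ℕ))) ∈
        {c | ∃ B : Set (Set ℕ), B ⊆ I ∧ #B = c ∧ ∀ X ∈ I, ∃ Y ∈ B, X \ Y ∈ J} := by
      refine ⟨_, ?_, rfl, fun X hX => ?_⟩
      · rintro _ ⟨t, rfl⟩
        exact mem_finset_sup hI.1 (hB n) t
      · obtain ⟨t, ht⟩ := hc X hX
        exact ⟨_, ⟨t, rfl⟩, ht⟩
    have h2 : relCof J I ≤ #(Finset (B n)) := (csInf_le' h1).trans mk_range_le
    exact absurd (hlt n) (not_lt.2 h2)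
  choose X hXI hXJ using hX
  have hV : ∀ n, ∃ V : Ultrafilter ℕ, X n ∈ V ∧ (∀ Y ∈ B n, Yᶜ ∈ V) ∧ ∀ K ∈ J, Kᶜ ∈ V := by
    intro n
    let H : Filter ℕ :=
      { sets := {Y | ∃ t : Finset (B n), (X n \ (⋃ Y ∈ t, (Y : Set ℕ))) \ Y ∈ J}
        univ_sets := ⟨∅, by simpa using hJ0⟩
        sets_of_superset := by
          rintro Y Z ⟨t, ht⟩ hYZ
          exact ⟨t, hJ1 _ ht _ fun m hm => ⟨hm.1, fun h => hm.2 (hYZ h)⟩⟩
        inter_sets := by
          rintro Y Z ⟨t, ht⟩ ⟨u, hu⟩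
          refine ⟨t ∪ u, hJ1 _ (hJ2 _ ht _ hu) _ ?_⟩
          rintro m ⟨⟨h1, h2⟩, h3⟩
          rw [Finset.set_biUnion_union] at h2
          by_cases hY : m ∈ Y
          · exact Or.inr ⟨⟨h1, fun h => h2 (Or.inr h)⟩, fun hZ => h3 ⟨hY, hZ⟩⟩
          · exact Or.inl ⟨⟨h1, fun h => h2 (Or.inl h)⟩, hY⟩ }
    have hH : H.NeBot := by
      refine ⟨fun h => ?_⟩
      have h1 : (∅ : Set ℕ) ∈ H := by rw [h]; exact mem_bot
      obtain ⟨t, ht⟩ := h1
      refine hXJ n t ?_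
      simpa using ht
    refine ⟨Ultrafilter.of H, ?_, fun Y hY => ?_, fun K hK => ?_⟩
    · refine Ultrafilter.of_le H ⟨∅, ?_⟩
      refine hJ1 _ hJ0 _ fun m hm => hm.2 hm.1.1
    · refine Ultrafilter.of_le H ⟨{⟨Y, hY⟩}, ?_⟩
      refine hJ1 _ hJ0 _ fun m hm => ?_
      have h1 := hm.1.2
      have h2 := hm.2
      simp only [Finset.mem_singleton, iUnion_iUnion_eq_left] at h1
      exact h2 h1
    · refine Ultrafilter.of_le H ⟨∅, ?_⟩
      refine hJ1 _ hK _ fun m hm => ?_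
      have h2 := hm.2
      rwa [mem_compl_iff, not_not] at h2
  choose V hV1 hV2 hV3 using hV
  refine no_seq hI V X hXI hV1 fun Y hY => ?_
  obtain ⟨N, Z, hZ, hZ2⟩ := hcov Y hY
  refine ⟨N, fun n hn => ?_⟩
  have h1 := hV2 n Z (hmono hn hZ)
  have h2 := hV3 n _ hZ2
  filter_upwards [h1, h2] with m hm1 hm2 hm
  exact hm2 ⟨hm, hm1⟩

theorem cof_uncountable {I J : Set (Set ℕ)} (hI : IsMaximalIdeal I)
    (hJ1 : ∀ A ∈ J, ∀ B, B ⊆ A → B ∈ J) (hJ2 : ∀ A ∈ J, ∀ B ∈ J, A ∪ B ∈ J) (hJ0 : ∅ ∈ J) :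
    relCof J I = 1 ∨ ℵ₀ < (relCof J I).ord.cof := by
  classical
  by_contra hc
  push Not at hc
  obtain ⟨h1, h2⟩ := hc
  obtain ⟨B, hB, hBc, hB2⟩ := relCof_mem (I := I) hJ0
  have hI0 : (∅ : Set ℕ) ∈ I := hI.1.2.2.2 ∅ finite_empty
  have hBne : B.Nonempty := by
    obtain ⟨Y, hY, _⟩ := hB2 ∅ hI0
    exact ⟨Y, hY⟩
  have hinf : ℵ₀ ≤ relCof J I := by
    by_contra hlt
    rw [not_le, ← hBc, lt_aleph0_iff_set_finite] at hlt
    have h3 : relCof J I ≤ 1 := by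
      refine csInf_le' ⟨{⋃₀ B}, ?_, by simp, fun X hX => ⟨⋃₀ B, rfl, ?_⟩⟩
      · rw [singleton_subset_iff]
        have : ⋃₀ B = ⋃ Y ∈ (hlt.fintype.elems : Finset B), (Y : Set ℕ) := by
          ext m
          simp only [mem_sUnion, mem_iUnion, exists_prop]
          constructor
          · rintro ⟨Y, hY, hm⟩
            exact ⟨⟨Y, hY⟩, hlt.fintype.complete _, hm⟩
          · rintro ⟨Y, _, hm⟩
            exact ⟨Y, Y.2, hm⟩
        rw [this]
        exact mem_finset_sup hI.1 hB _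
      · obtain ⟨Y, hY, hY2⟩ := hB2 X hX
        exact hJ1 _ hY2 _ fun m hm => ⟨hm.1, fun h => hm.2 ⟨Y, hY, h⟩⟩
    have h4 : relCof J I ≠ 0 := by
      rw [← hBc]
      exact mk_ne_zero_iff.2 hBne.to_subtype
    have h5 : 1 ≤ relCof J I := Cardinal.one_le_iff_ne_zero.2 h4
    exact h1 (le_antisymm h3 h5)
  -- a countable cofinal set
  set κ := relCof J I with hκ
  let O : Type := κ.ord.ToType
  have hO : #O = κ := mk_ord_toType κ
  obtain ⟨S, hS, hS2⟩ := Order.exists_cof_eq O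
  have hScount : S.Countable := by
    rw [← le_aleph0_iff_set_countable, hS2]
    exact (Ordinal.cof_toType κ.ord).trans_le h2
  have : Nonempty O := by
    rw [← mk_ne_zero_iff, hO]
    exact (aleph0_pos.trans_le hinf).ne'
  obtain ⟨s, hs⟩ := hScount.exists_eq_range hS.nonempty
  let t : ℕ → O := fun n => Nat.rec (s 0) (fun n x => max x (s (n + 1))) n
  have ht : ∀ n, t (n + 1) = max (t n) (s (n + 1)) := fun n => rfl
  have htm : Monotone t := monotone_nat_of_le_succ fun n => by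
    rw [ht]
    exact le_max_left _ _
  have hst : ∀ n, s n ≤ t n := by
    intro n
    cases n with
    | zero => exact le_rfl
    | succ n =>
      rw [ht]
      exact le_max_right _ _
  obtain ⟨e⟩ : Nonempty (B ≃ O) := Cardinal.eq.1 (hBc.trans hO.symm)
  have hIic : ∀ a : O, #(Iic a) < κ := by
    intro a
    have h3 : Iic a = insert a (Iio a) := by
      ext x
      simp [le_iff_eq_or_lt]
    rw [h3]
    exact (mk_insert_le).trans_lt (add_lt_of_lt hinf (mk_Iio_toType_ord_lt a)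
      (one_lt_aleph0.trans_le hinf))
  let Bn : ℕ → Set (Set ℕ) := fun n => {Y | ∃ h : Y ∈ B, e ⟨Y, h⟩ ≤ t n}
  refine no_countable hI hJ1 hJ2 hJ0 Bn ?_ ?_ ?_ ?_
  · rintro n Y ⟨h, _⟩
    exact hB h
  · rintro n m hnm Y ⟨h, h3⟩
    exact ⟨h, h3.trans (htm hnm)⟩
  · intro X hX
    obtain ⟨Y, hY, hY2⟩ := hB2 X hX
    obtain ⟨a, ha, ha2⟩ := hS (e ⟨Y, hY⟩)
    rw [hs] at ha
    obtain ⟨n, rfl⟩ := ha
    exact ⟨n, Y, ⟨hY, ha2.trans (hst n)⟩, hY2⟩
  · intro n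
    have h3 : #(Bn n) < κ := by
      have h4 : #(Bn n) ≤ #(Iic (t n)) := by
        refine mk_le_of_injective
          (f := fun Y : Bn n => (⟨e ⟨Y.1, Y.2.1⟩, Y.2.2⟩ : Iic (t n))) ?_
        rintro ⟨Y, hY, hY2⟩ ⟨Z, hZ, hZ2⟩ h
        have h5 := e.injective (congrArg Subtype.val h)
        have h6 : Y = Z := congrArg Subtype.val h5
        exact Subtype.ext h6
      exact h4.trans_lt (hIic _)
    rcases finite_or_infinite (Bn n) with hf | hf
    · have hft := Fintype.ofFinite (Bn n)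
      have h6 : #(Finset (Bn n)) < ℵ₀ := by
        rw [mk_fintype]
        exact natCast_lt_aleph0
      exact h6.trans_le hinf
    · rw [mk_finset_of_infinite]
      exact h3

end Pool.Agent.KS6_46.RC
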