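import Mathlib
import Pool.Graph.R_pool_sql_team_22a80281.Results.MP_f21612_lc.RelCof

namespace Pool.Agent.KS6_46.RC

open Set Filter Cardinal Pool.Agent.Lib.helper11.Indep Pool.Agent.Results.MP_f21612_lc.RelCof

/-- `P` is Tukey equivalent to `I` ordered by inclusion modulo `J`. -/
def TukeyEq (P : Type) [Preorder P] (I J : Set (Set ℕ)) : Prop :=
  ∃ (f : P → Set ℕ) (g : Set ℕ → P), (∀ p, f p ∈ I) ∧
    (∀ p, ∀ X ∈ I, f p \ X ∈ J → p ≤ g X) ∧ (∀ p, ∀ X ∈ I, g X ≤ p → X \ f p ∈ J)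

lemma relCof_eq {P : Type} [Preorder P] {I J : Set (Set ℕ)} (hJ : ∅ ∈ J)
    (h : TukeyEq P I J) : relCof J I = Order.cof P := by
  obtain ⟨f, g, hf, h1, h2⟩ := h
  refine le_antisymm ?_ ?_
  · obtain ⟨S, hS, hS2⟩ := Order.exists_cof_eq P
    have : #(f '' S) ∈ {c | ∃ B : Set (Set ℕ), B ⊆ I ∧ #B = c ∧ ∀ X ∈ I, ∃ Y ∈ B, X \ Y ∈ J} := by
      refine ⟨f '' S, ?_, rfl, ?_⟩
      · rintro _ ⟨p, _, rfl⟩
        exact hf p
      · intro X hX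
        obtain ⟨p, hp, hp2⟩ := hS (g X)
        exact ⟨f p, ⟨p, hp, rfl⟩, h2 p X hX hp2⟩
    exact (csInf_le' this).trans (mk_image_le.trans hS2.le)
  · refine le_csInf ⟨#I, I, Subset.rfl, rfl, fun X hX => ⟨X, hX, by rwa [sdiff_self]⟩⟩ ?_
    rintro _ ⟨B, hB, rfl, hB2⟩
    have hc : IsCofinal (g '' B) := by
      intro p
      obtain ⟨Y, hY, hY2⟩ := hB2 (f p) (hf p)
      exact ⟨g Y, ⟨Y, hY, rfl⟩, h1 p Y (hB hY) hY2⟩
    exact (Order.cof_le hc).trans mk_image_le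

lemma maximal_of_ultra (U : Ultrafilter ℕ) (hU : (U : Filter ℕ) ≤ cofinite) :
    IsMaximalIdeal {X | Xᶜ ∈ (U : Filter ℕ)} := by
  refine ⟨isIdeal_of_filter _ hU, fun K hK hIK => ?_⟩
  refine Subset.antisymm (fun X hX => ?_) hIK
  by_contra h
  have h' : X ∈ U := Ultrafilter.compl_notMem_iff.1 h
  have : Xᶜ ∈ K := hIK (show Xᶜᶜ ∈ (U : Filter ℕ) by rwa [compl_compl])
  have h3 := hK.2.1 X hX _ this
  rw [union_compl_self] at h3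
  exact hK.2.2.1 h3

lemma cof_of_family (U : Ultrafilter ℕ) (B : Set ℕ → Set ℕ) (hB : ∀ x, B x ∈ U)
    (hB' : ∀ S : Set (Set ℕ), S.Infinite → (⋂ x ∈ S, B x)ᶜ ∈ U) :
    cof {X | Xᶜ ∈ (U : Filter ℕ)} = 𝔠 := by
  have hne : #{X : Set ℕ | Xᶜ ∈ (U : Filter ℕ)} ∈ {c | ∃ B : Set (Set ℕ),
      B ⊆ {X | Xᶜ ∈ (U : Filter ℕ)} ∧ #B = c ∧
        ∀ X ∈ {X | Xᶜ ∈ (U : Filter ℕ)}, ∃ Y ∈ B, X ⊆ Y} :=
    ⟨_, Subset.rfl, rfl, fun X hX => ⟨X, hX, Subset.rfl⟩⟩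
  refine le_antisymm ((csInf_le' hne).trans ((mk_set_le _).trans mk_set_nat.le))
    (le_csInf ⟨_, hne⟩ ?_)
  rintro _ ⟨T, hT, rfl, hT'⟩
  by_contra hlt
  rw [not_le, ← mk_set_nat] at hlt
  have : ∀ x : Set ℕ, ∃ Y : T, (B x)ᶜ ⊆ Y := fun x => by
    obtain ⟨Y, hY, h⟩ := hT' (B x)ᶜ (show (B x)ᶜᶜ ∈ (U : Filter ℕ) by
      rw [compl_compl]; exact hB x)
    exact ⟨⟨Y, hY⟩, h⟩
  choose f hf using this
  obtain ⟨Y, hY⟩ := exists_infinite_fiber f hlt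
  have h3 : (⋂ x ∈ f ⁻¹' {Y}, B x)ᶜ ∈ U := hB' _ (infinite_coe_iff.1 hY)
  have h4 : (Y : Set ℕ)ᶜ ∈ U := hT Y.2
  refine Ultrafilter.compl_notMem_iff.2 (mem_of_superset h4 fun m hm => ?_) h3
  refine mem_iInter₂.2 fun x hx => ?_
  by_contra h
  have := hf x h
  rw [show f x = Y from hx] at this
  exact hm this

lemma setup : ∃ (A : Set ℕ → Set ℕ) (F : Filter ℕ) (U : Ultrafilter ℕ), F ≤ cofinite ∧
    (∀ s, Cons s → (cell A s)ᶜ ∉ F) ∧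
    (∀ X : Set ℕ, Xᶜ ∉ F → ∃ s, Cons s ∧ (cell A s)ᶜ ∪ X ∈ F) ∧ (U : Filter ℕ) ≤ F ∧
    (∀ a, A a ∈ U) ∧ cof {X | Xᶜ ∈ (U : Filter ℕ)} = 𝔠 := by
  obtain ⟨A, B, hAB⟩ := exists_AB (Set ℕ) mk_set_nat.le
  obtain ⟨F₀, hF₀, hB, hB', hc₀⟩ := exists_F₀ A B hAB
  obtain ⟨F, hF, h1, h2⟩ := exists_max A F₀ hc₀
  obtain ⟨U, hU, hUA⟩ := exists_ultra A F {p | p.2 = true} fun s hs => h1 s fun a h => by
    simpa using hs _ h.2
  refine ⟨A, F, U, hF.trans hF₀, h1, h2, hU, fun a => cell_true A a ▸ hUA (a, true) rfl, ?_⟩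
  exact cof_of_family U B (fun x => hU (hF (hB x))) fun S hS => hU (hF (hB' S hS))

theorem realise {A : Set ℕ → Set ℕ} {F : Filter ℕ} {U : Ultrafilter ℕ} (hF : F ≤ cofinite)
    (h1 : ∀ s, Cons s → (cell A s)ᶜ ∉ F)
    (h2 : ∀ X : Set ℕ, Xᶜ ∉ F → ∃ s, Cons s ∧ (cell A s)ᶜ ∪ X ∈ F) (hU : (U : Filter ℕ) ≤ F)
    (hUA : ∀ a, A a ∈ U) (P : Type) [Preorder P] [Nonempty P] (hP : #P ≤ 𝔠)
    (hσ : ∀ C : Set P, C.Countable → BddAbove C) :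
    ∃ J, IsIdeal J ∧ J ⊆ {X | Xᶜ ∈ (U : Filter ℕ)} ∧ TukeyEq P {X | Xᶜ ∈ (U : Filter ℕ)} J := by
  classical
  obtain ⟨ι⟩ : Nonempty (P ↪ Set ℕ) := (Cardinal.le_def _ _).1 (hP.trans mk_set_nat.ge)
  let D : P → Set (Set ℕ) := fun q => {w | ∀ b, ι b = w → b ≤ q}
  have hx : ∀ q : P, ∃ V : Ultrafilter ℕ, (V : Filter ℕ) ≤ F ∧
      (∀ X ∈ U, Supp A F (D q) X → X ∈ V) ∧ ∀ b, ¬ b ≤ q → (A (ι b))ᶜ ∈ V := by
    intro q
    let G : Filter ℕ :=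
      { sets := {Y | ∃ X ∈ U, Supp A F (D q) X ∧ Xᶜ ∪ Y ∈ F}
        univ_sets := ⟨Set.univ, univ_mem, fun _ _ _ => by simp, by simp⟩
        sets_of_superset := by
          rintro X Y ⟨Z, h1, h2, h3⟩ hXY
          exact ⟨Z, h1, h2, mem_of_superset h3 (union_subset_union_right _ hXY)⟩
        inter_sets := by
          rintro X Y ⟨Z, h1, h2, h3⟩ ⟨Z', h1', h2', h3'⟩
          refine ⟨Z ∩ Z', inter_mem h1 h1', h2.inter h2', ?_⟩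
          filter_upwards [h3, h3'] with m hm hm'
          by_cases hz : m ∈ Z ∩ Z'
          · exact Or.inr ⟨hm.resolve_left fun h => h hz.1, hm'.resolve_left fun h => h hz.2⟩
          · exact Or.inl hz }
    obtain ⟨V, hV, hV'⟩ := exists_ultra A G {p | p.1 ∉ D q ∧ p.2 = false} (by
      rintro s hs ⟨X, hX, hXs, hXF⟩
      obtain ⟨t, ht, ht'⟩ := h2 X fun h => Ultrafilter.compl_notMem_iff.2 hX (hU h)
      have h3 := hXs t ht ht'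
      refine h1 (t.filter (·.1 ∈ D q) ∪ s) ?_ ?_
      · rintro b ⟨b1, b2⟩
        rcases Finset.mem_union.1 b1 with b1 | b1
        · rcases Finset.mem_union.1 b2 with b2 | b2
          · exact ht b ⟨(Finset.mem_filter.1 b1).1, (Finset.mem_filter.1 b2).1⟩
          · exact (hs _ b2).1 (Finset.mem_filter.1 b1).2
        · simpa using (hs _ b1).2
      · filter_upwards [h3, hXF] with m hm hm' hm''
        rw [cell_union] at hm''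
        rcases hm with hm | hm
        · refine hm ?_
          convert hm''.1
        · exact hm'.elim (fun h => h hm) fun h => h hm''.2)
    refine ⟨V, fun Y hY => hV ⟨Set.univ, univ_mem, fun _ _ _ => by simp, by simpa using hY⟩,
      fun X hX hs => hV ⟨X, hX, hs, by simp⟩, fun b hb => ?_⟩
    exact cell_false A (ι b) ▸ hV' (ι b, false) ⟨fun h => hb (h b rfl), rfl⟩
  choose V hV1 hV2 hV3 using hx
  have hconv : ∀ X ∈ U, ∃ p, ∀ q, p ≤ q → X ∈ V q := fun X hX => by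
    obtain ⟨C, hC, h⟩ := exists_supp h1 h2 X
    obtain ⟨p, hp⟩ := hσ (ι ⁻¹' C) (hC.preimage_of_injOn ι.injective.injOn)
    refine ⟨p, fun q hq => hV2 q X hX (h.mono fun w hw b hb => ?_)⟩
    exact (hp (show ι b ∈ C by rwa [hb])).trans hq
  obtain ⟨q₀⟩ := ‹Nonempty P›
  have : (⨆ q, (V q : Filter ℕ)).NeBot :=
    (V q₀).neBot.mono (le_iSup (fun q => (V q : Filter ℕ)) q₀)
  have hconv' : ∀ X : Set ℕ, ∃ p, Xᶜ ∈ U → ∀ q, p ≤ q → Xᶜ ∈ V q := fun X => by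
    by_cases hX : Xᶜ ∈ U
    · obtain ⟨p, hp⟩ := hconv _ hX
      exact ⟨p, fun _ => hp⟩
    · exact ⟨q₀, fun h => absurd h hX⟩
  choose g hg using hconv'
  refine ⟨{X | Xᶜ ∈ ⨆ q, (V q : Filter ℕ)},
    isIdeal_of_filter _ (iSup_le fun q => (hV1 q).trans hF), fun X hX => ?_,
    fun p => (A (ι p))ᶜ, g, fun p => ?_, fun p X hX h => ?_, fun p X hX h => ?_⟩
  · by_contra h
    have h' : X ∈ U := Ultrafilter.compl_notMem_iff.1 h
    obtain ⟨a, ha⟩ := hconv X h'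
    exact Ultrafilter.compl_notMem_iff.2 (ha a le_rfl) (mem_iSup.1 hX a)
  · show (A (ι p))ᶜᶜ ∈ (U : Filter ℕ)
    rw [compl_compl]
    exact hUA _
  · by_contra hc
    have h3 : ((A (ι p))ᶜ \ X)ᶜ ∈ V (g X) := mem_iSup.1 h (g X)
    exact Ultrafilter.compl_notMem_iff.2
      (inter_mem (hV3 (g X) p hc) (hg X hX (g X) le_rfl)) h3
  · refine mem_iSup.2 fun q => ?_
    by_cases hpq : p ≤ q
    · exact mem_of_superset (hg X hX q (h.trans hpq)) fun m hm h => hm h.1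
    · exact mem_of_superset (hV3 q p hpq) fun m hm h => h.2 hm

end Pool.Agent.KS6_46.RC
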